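import Pool.Agent.Run7.h9.BS.Abs
import Pool.Agent.Run7.h9.BS.Pow
import Pool.Agent.H921R2.TatePole.Base

/-!
# The places with `N ∣ Nv - 1`

The lemmas on the primes below are those of the starting file `N751/RW/Mert.lean`.
-/

set_option autoImplicit false
set_option linter.unusedSectionVars false

namespace Run7.h9.CM

open NumberField IsDedekindDomain Finset Filter Topology
open Run7.h876.MM (nv nv_pos two_le_nv SZ mem_SZ)
open Run7.h9.BS
open Pool.Agent.H921R2.TatePole (below deg nm nm_eq card_above)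

section below

variable (K L : Type) [Field K] [NumberField K] [Field L] [NumberField L] [Algebra K L]

/-- the prime below -/
noncomputable def dn (w : HeightOneSpectrum (𝓞 L)) : HeightOneSpectrum (𝓞 K) where
  asIdeal := w.asIdeal.comap (algebraMap (𝓞 K) (𝓞 L))
  isPrime := Ideal.IsPrime.comap _
  ne_bot := Ideal.IsIntegral.comap_ne_bot (𝓞 K) w.ne_bot

theorem liesOver (w : HeightOneSpectrum (𝓞 L)) : w.asIdeal.LiesOver (dn K L w).asIdeal := ⟨rfl⟩

/-- the number of primes above -/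
theorem card_above' (v : HeightOneSpectrum (𝓞 K)) (F : Finset (HeightOneSpectrum (𝓞 L))) (hF : ∀ w ∈ F, dn K L w = v) :
    F.card ≤ Module.finrank K L := by
  classical
  have : v.asIdeal.IsMaximal := v.isMaximal
  have : NoZeroSMulDivisors (𝓞 K) (𝓞 L) := ⟨by
    intro c x h
    rw [Algebra.smul_def] at h
    rcases mul_eq_zero.1 h with h2 | h2
    · left
      apply FaithfulSMul.algebraMap_injective (𝓞 K) (𝓞 L)
      rw [h2, map_zero]
    · exact Or.inr h2⟩
  have h1 := Ideal.card_primesOverFinset_le_finrank (𝓞 L) K L (p := v.asIdeal) v.ne_bot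
  refine le_trans ?_ h1
  rw [← Finset.card_image_of_injective (f := fun w : HeightOneSpectrum (𝓞 L) => w.asIdeal) F
    (fun a b h => HeightOneSpectrum.ext h)]
  refine Finset.card_le_card fun P hP => ?_
  obtain ⟨w, hw, rfl⟩ := Finset.mem_image.1 hP
  refine (IsDedekindDomain.mem_primesOverFinset_iff v.ne_bot _).2 ⟨w.isPrime, ?_⟩
  rw [← hF w hw]
  exact liesOver K L w

/-- the norm of the prime below a prime of prime norm -/
theorem norm_dn (w : HeightOneSpectrum (𝓞 L)) {p : ℕ} (hp : p.Prime) (hw : nv w = p) : nv (dn K L w) = p := by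
  unfold nv at hw ⊢
  set v := dn K L w with hv
  let φ : (𝓞 K ⧸ v.asIdeal) →+* (𝓞 L ⧸ w.asIdeal) :=
    Ideal.quotientMap w.asIdeal (algebraMap (𝓞 K) (𝓞 L)) le_rfl
  have hφ : Function.Injective φ := Ideal.quotientMap_injective
  have hcL : Nat.card (𝓞 L ⧸ w.asIdeal) = p := by
    rw [← hw, Ideal.absNorm_apply, Submodule.cardQuot_apply]
  have hcK : Nat.card (𝓞 K ⧸ v.asIdeal) = Ideal.absNorm v.asIdeal := by
    rw [Ideal.absNorm_apply, Submodule.cardQuot_apply]
  have h1 : Nat.card (φ.toAddMonoidHom.range) ∣ Nat.card (𝓞 L ⧸ w.asIdeal) :=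
    AddSubgroup.card_addSubgroup_dvd_card _
  have h2 : Nat.card (φ.toAddMonoidHom.range) = Nat.card (𝓞 K ⧸ v.asIdeal) :=
    (Nat.card_congr (AddMonoidHom.ofInjective (f := φ.toAddMonoidHom) hφ).toEquiv).symm
  rw [h2, hcL, hcK] at h1
  rcases (Nat.dvd_prime hp).1 h1 with h3 | h3
  · exact absurd (Ideal.absNorm_eq_one_iff.1 h3) v.isPrime.ne_top
  · exact h3

/-- the roots of unity in the residue field -/
theorem dvd_sub {N : ℕ} (hN : 0 < N) {ζ : L} (hζ : IsPrimitiveRoot ζ N) (w : HeightOneSpectrum (𝓞 L)) {p : ℕ}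
    (hp : p.Prime) (hw : nv w = p) (hpN : Nat.Coprime p N) : N ∣ p - 1 := by
  have : w.asIdeal.IsMaximal := w.isMaximal
  letI : Field (𝓞 L ⧸ w.asIdeal) := Ideal.Quotient.field w.asIdeal
  have hcL : Nat.card (𝓞 L ⧸ w.asIdeal) = p := by
    rw [← hw]
    unfold nv
    rw [Ideal.absNorm_apply, Submodule.cardQuot_apply]
  have : Finite (𝓞 L ⧸ w.asIdeal) := Nat.finite_of_card_ne_zero (by rw [hcL]; exact hp.ne_zero)
  have : Fintype (𝓞 L ⧸ w.asIdeal) := Fintype.ofFinite _
  have : NeZero N := ⟨hN.ne'⟩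
  have hz := hζ.toInteger_isPrimitiveRoot
  have hl0 : ((N : ℕ) : 𝓞 L ⧸ w.asIdeal) ≠ 0 := by
    intro h0
    have hp0 : ((p : ℕ) : 𝓞 L ⧸ w.asIdeal) = 0 := by
      have h1 := Nat.cast_card_eq_zero (𝓞 L ⧸ w.asIdeal)
      rw [← Nat.card_eq_fintype_card, hcL] at h1
      exact h1
    have h2 : (1 : 𝓞 L ⧸ w.asIdeal) = 0 := by
      obtain ⟨a, b, hab⟩ := Nat.isCoprime_iff_coprime.2 hpN
      have h3 := congrArg (Int.cast : ℤ → 𝓞 L ⧸ w.asIdeal) hab
      push_cast at h3
      rw [hp0, h0, mul_zero, mul_zero, add_zero] at h3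
      exact h3.symm
    exact one_ne_zero h2
  have : NeZero ((N : ℕ) : 𝓞 L ⧸ w.asIdeal) := ⟨hl0⟩
  have hroot : (Polynomial.cyclotomic N (𝓞 L)).IsRoot hζ.toInteger :=
    hz.isRoot_cyclotomic hN
  have h4 : (Polynomial.cyclotomic N (𝓞 L ⧸ w.asIdeal)).IsRoot
      (Ideal.Quotient.mk w.asIdeal hζ.toInteger) := by
    rw [← Polynomial.map_cyclotomic N (Ideal.Quotient.mk w.asIdeal)]
    exact hroot.map
  have h5 := Polynomial.isRoot_cyclotomic_iff.1 h4
  have h6 : Ideal.Quotient.mk w.asIdeal hζ.toInteger ≠ 0 := h5.ne_zero hN.ne'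
  have h7 := FiniteField.pow_card_sub_one_eq_one _ h6
  rw [← Nat.card_eq_fintype_card, hcL] at h7
  exact h5.dvd_of_pow_eq_one _ h7

end below

section
variable {K : Type} [Field K] [NumberField K]

theorem cv_le_two (v : HeightOneSpectrum (𝓞 K)) : cv v ≤ 2 / nv v := by
  obtain ⟨h1, h2⟩ := inv_nv_le v
  have h := (abs_le.1 (log_one' (x := 1 / (nv v : ℝ)) h1.le h2)).2
  unfold cv
  have e : (2 : ℝ) / nv v = 1 / nv v + 2 * (1 / nv v) * (1 / 2) := by ring
  have h3 : 2 * (1 / (nv v : ℝ)) ^ 2 ≤ 2 * (1 / nv v) * (1 / 2) := by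
    rw [sq, ← mul_assoc]
    exact mul_le_mul_of_nonneg_left h2 (by positivity)
  rw [e]
  linarith

variable (K) in
/-- The places the norm of which is not a prime number contribute a bounded amount. -/
theorem nonprime_bound : ∃ C : ℝ, 0 ≤ C ∧ ∀ F : Finset (HeightOneSpectrum (𝓞 K)), (∀ v ∈ F, ¬ (nv v).Prime) →
    ∑ v ∈ F, cv v ≤ C := by
  classical
  have hs : Summable fun p : Nat.Primes => (Module.finrank ℚ K : ℝ) * (2 / ((p : ℕ) : ℝ) ^ 2) := by
    have h1 : Summable fun n : ℕ => (1 : ℝ) / (n : ℝ) ^ 2 := Real.summable_one_div_nat_pow.2 (by norm_num)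
    have h2 : Summable fun p : Nat.Primes => (1 : ℝ) / ((p : ℕ) : ℝ) ^ 2 := h1.comp_injective Nat.Primes.coe_nat_injective
    refine ((h2.mul_left 2).mul_left (Module.finrank ℚ K : ℝ)).congr fun p => ?_
    ring
  refine ⟨∑' p : Nat.Primes, (Module.finrank ℚ K : ℝ) * (2 / ((p : ℕ) : ℝ) ^ 2), tsum_nonneg fun p => by positivity,
    fun F hF => ?_⟩
  have h1 : ∀ v ∈ F, cv v ≤ 2 / ((below v : ℕ) : ℝ) ^ 2 := by
    intro v hv
    refine (cv_le_two v).trans ?_
    obtain ⟨h2, h3, h4⟩ := nm_eq v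
    have h5 : nv v = nm v := rfl
    have hp0 : (0 : ℝ) < (below v : ℕ) := by exact_mod_cast (below v).2.pos
    have hp1 : (1 : ℝ) ≤ (below v : ℕ) := by exact_mod_cast (below v).2.one_lt.le
    have hdeg : 2 ≤ deg v := by
      by_contra hc
      have hd : deg v = 1 := by omega
      rw [hd, pow_one] at h2
      apply hF v hv
      rw [h5, h2]
      exact (below v).2
    refine div_le_div_of_nonneg_left (by norm_num) (by positivity) ?_
    rw [h5, h2]
    push_cast
    exact pow_le_pow_right₀ hp1 hdeg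
  refine (Finset.sum_le_sum h1).trans ?_
  rw [← Finset.sum_fiberwise_of_maps_to (g := below) (t := F.image below) (fun v hv => Finset.mem_image_of_mem _ hv)]
  refine le_trans (Finset.sum_le_sum fun p _ => ?_) (hs.sum_le_tsum (F.image below) fun p _ => by positivity)
  have h2 : ∑ v ∈ F.filter (fun v => below v = p), 2 / ((below v : ℕ) : ℝ) ^ 2 =
      (F.filter fun v => below v = p).card * (2 / ((p : ℕ) : ℝ) ^ 2) := by
    rw [← nsmul_eq_mul, ← Finset.sum_const]
    exact Finset.sum_congr rfl fun v hv => by rw [(Finset.mem_filter.1 hv).2]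
  rw [h2]
  refine mul_le_mul_of_nonneg_right ?_ (by positivity)
  exact_mod_cast card_above p _ fun v hv => (Finset.mem_filter.1 hv).2

/-- the places with `N ∣ Nv - 1` -/
noncomputable def AZ (K : Type) [Field K] [NumberField K] (N Z : ℕ) : ℝ :=
  ∑ v ∈ (SZ K Z).filter (fun v => N ∣ nv v - 1), cv v

variable (K) in
theorem AZ_atTop {N : ℕ} (hN : 0 < N) : Tendsto (AZ K N) atTop atTop := by
  classical
  have : NeZero N := ⟨hN.ne'⟩
  have : NeZero ((N : ℕ) : K) := ⟨by exact_mod_cast hN.ne'⟩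
  obtain ⟨C, hC, hnon⟩ := nonprime_bound (CyclotomicField N K)
  have hζ := IsCyclotomicExtension.zeta_spec N K (CyclotomicField N K)
  obtain ⟨d, hd⟩ : ∃ d : ℕ, d = Module.finrank K (CyclotomicField N K) := ⟨_, rfl⟩
  have hd0 : 0 < d := by rw [hd]; exact Module.finrank_pos
  have hd0' : (0 : ℝ) < d := by exact_mod_cast hd0
  obtain ⟨C', hC'⟩ : ∃ C' : ℝ, C' = C + ∑ w ∈ SZ (CyclotomicField N K) N, cv w := ⟨_, rfl⟩
  have hkey : ∀ Z, VZ (CyclotomicField N K) Z ≤ d * AZ K N Z + C' := by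
    intro Z
    unfold VZ
    rw [← Finset.sum_filter_add_sum_filter_not (SZ (CyclotomicField N K) Z) (fun w => (nv w).Prime)]
    have h1 := hnon ((SZ (CyclotomicField N K) Z).filter fun w => ¬ (nv w).Prime) fun w hw => (Finset.mem_filter.1 hw).2
    rw [← Finset.sum_filter_add_sum_filter_not ((SZ (CyclotomicField N K) Z).filter fun w => (nv w).Prime) (fun w => nv w ≤ N)]
    have h2 : ∑ w ∈ ((SZ (CyclotomicField N K) Z).filter fun w => (nv w).Prime).filter (fun w => nv w ≤ N), cv w ≤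
        ∑ w ∈ SZ (CyclotomicField N K) N, cv w :=
      Finset.sum_le_sum_of_subset_of_nonneg (fun w hw => mem_SZ.2 (Finset.mem_filter.1 hw).2) fun w _ _ => (cv_pos w).le
    obtain ⟨W, hW⟩ : ∃ W, W = ((SZ (CyclotomicField N K) Z).filter fun w => (nv w).Prime).filter (fun w => ¬ nv w ≤ N) := ⟨_, rfl⟩
    have h3 : ∑ w ∈ W, cv w ≤ d * AZ K N Z := by
      have hnorm : ∀ w ∈ W, nv (dn K (CyclotomicField N K) w) = nv w := by
        intro w hw
        rw [hW, Finset.mem_filter, Finset.mem_filter] at hw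
        exact norm_dn K (CyclotomicField N K) w hw.1.2 rfl
      have hmaps : ∀ w ∈ W, dn K (CyclotomicField N K) w ∈ (SZ K Z).filter (fun v => N ∣ nv v - 1) := by
        intro w hw
        have h3 := hnorm w hw
        rw [hW, Finset.mem_filter, Finset.mem_filter] at hw
        rw [Finset.mem_filter, mem_SZ, h3]
        refine ⟨mem_SZ.1 hw.1.1, dvd_sub (CyclotomicField N K) hN hζ w hw.1.2 rfl ?_⟩
        rw [Nat.Prime.coprime_iff_not_dvd hw.1.2]
        intro hdv
        exact hw.2 (Nat.le_of_dvd hN hdv)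
      have h5 : ∑ w ∈ W, cv w = ∑ w ∈ W, cv (dn K (CyclotomicField N K) w) := by
        refine Finset.sum_congr rfl fun w hw => ?_
        unfold cv
        rw [hnorm w hw]
      unfold AZ
      rw [h5, ← Finset.sum_fiberwise_of_maps_to hmaps, Finset.mul_sum]
      refine Finset.sum_le_sum fun v _ => ?_
      have h6 : ∑ w ∈ W.filter (fun w => dn K (CyclotomicField N K) w = v), cv (dn K (CyclotomicField N K) w) =
          (W.filter (fun w => dn K (CyclotomicField N K) w = v)).card * cv v := by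
        rw [← nsmul_eq_mul, ← Finset.sum_const]
        exact Finset.sum_congr rfl fun w hw => by rw [(Finset.mem_filter.1 hw).2]
      rw [h6]
      refine mul_le_mul_of_nonneg_right ?_ (cv_pos v).le
      rw [hd]
      exact_mod_cast card_above' K (CyclotomicField N K) v _ fun w hw => (Finset.mem_filter.1 hw).2
    rw [← hW, hC']
    linarith
  rw [tendsto_atTop]
  intro b
  filter_upwards [(VZ_atTop (K := CyclotomicField N K)).eventually_ge_atTop (d * b + C')] with Z hZ
  have h1 := hkey Z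
  have h2 : (d : ℝ) * b ≤ d * AZ K N Z := by linarith
  exact le_of_mul_le_mul_left h2 hd0'

end

end Run7.h9.CM
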